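import Pool.Agent.helper37.NA.Spec

/-!
# Row na:NTC (MP_baa4d7_al): sum over all subgroups `E'`
-/

set_option autoImplicit false

namespace Pool.Agent.NAB

open Pool.Agent.helper58.DC Pool.Agent.DI Pool.Agent.GR Pool.Agent.OB Pool.Agent.DR Pool.Agent.FI Pool.Agent.FI3 Pool.Agent.FI4 Pool.Agent.FI4I Pool.Agent.LE Pool.Agent.L5

section

variable {G : Type} [Group G]

theorem NTC_eq (E : Subgroup G) (l l₀ : G) : cjS l E = cjS l₀ E ↔ l₀⁻¹ * l ∈ nz E := by
  rw [Subgroup.mem_normalizer_iff]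
  constructor
  · intro h k
    have h1 : l * k * l⁻¹ ∈ cjS l E ↔ l * k * l⁻¹ ∈ cjS l₀ E := by rw [h]
    rw [mem_cjS, mem_cjS] at h1
    have e1 : l⁻¹ * (l * k * l⁻¹) * l = k := by group
    have e2 : l₀⁻¹ * (l * k * l⁻¹) * l₀ = l₀⁻¹ * l * k * (l₀⁻¹ * l)⁻¹ := by group
    rw [e1, e2] at h1
    exact h1
  · intro h
    ext x
    rw [mem_cjS, mem_cjS]
    have h1 := h (l⁻¹ * x * l)
    have e2 : l₀⁻¹ * l * (l⁻¹ * x * l) * (l₀⁻¹ * l)⁻¹ = l₀⁻¹ * x * l₀ := by group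
    rw [e2] at h1
    exact h1

theorem NTC_nz (E L : Subgroup G) (l : G) (hl : l ∈ L) : L ⊓ nz (cjS l E) = cjS l (L ⊓ nz E) := by
  ext x
  rw [mem_cjS, Subgroup.mem_inf, Subgroup.mem_inf]
  have h1 : x ∈ L ↔ l⁻¹ * x * l ∈ L := by
    constructor
    · intro h
      exact L.mul_mem (L.mul_mem (L.inv_mem hl) h) hl
    · intro h
      have h2 := L.mul_mem (L.mul_mem hl h) (L.inv_mem hl)
      have e : l * (l⁻¹ * x * l) * l⁻¹ = x := by group
      rwa [e] at h2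
  have h2 : x ∈ nz (cjS l E) ↔ l⁻¹ * x * l ∈ nz E := by
    rw [Subgroup.mem_normalizer_iff, Subgroup.mem_normalizer_iff]
    constructor
    · intro h k
      have h3 := h (l * k * l⁻¹)
      rw [mem_cjS, mem_cjS] at h3
      have e1 : l⁻¹ * (l * k * l⁻¹) * l = k := by group
      have e2 : l⁻¹ * (x * (l * k * l⁻¹) * x⁻¹) * l = l⁻¹ * x * l * k * (l⁻¹ * x * l)⁻¹ := by group
      rw [e1, e2] at h3
      exact h3
    · intro h k
      have h3 := h (l⁻¹ * k * l)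
      rw [mem_cjS, mem_cjS]
      have e2 : l⁻¹ * x * l * (l⁻¹ * k * l) * (l⁻¹ * x * l)⁻¹ = l⁻¹ * (x * k * x⁻¹) * l := by group
      rw [e2] at h3
      exact h3
  rw [h1, h2]

theorem NTC_cd (K : Subgroup G) (g : G) : Nat.card (cjS g K : Subgroup G) = Nat.card K :=
  (Nat.card_congr (K.equivMapOfInjective _ (MulAut.conj g).injective).toEquiv).symm

theorem NTC_fib (E L : Subgroup G) (l₀ : G) (hl₀ : l₀ ∈ L) :
    {l : G | l ∈ L ∧ cjS l E = cjS l₀ E}.ncard = Nat.card (L ⊓ nz E : Subgroup G) := by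
  have e : {l : G | l ∈ L ∧ cjS l E = cjS l₀ E} = (fun k => l₀ * k) '' ((L ⊓ nz E : Subgroup G) : Set G) := by
    ext l
    simp only [Set.mem_image, SetLike.mem_coe]
    constructor
    · intro h
      have h' : l ∈ L ∧ cjS l E = cjS l₀ E := h
      refine ⟨l₀⁻¹ * l, ?_, by group⟩
      exact Subgroup.mem_inf.2 ⟨L.mul_mem (L.inv_mem hl₀) h'.1, (NTC_eq E l l₀).1 h'.2⟩
    · rintro ⟨k, hk, rfl⟩
      have hk' := Subgroup.mem_inf.1 hk
      show l₀ * k ∈ L ∧ cjS (l₀ * k) E = cjS l₀ E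
      refine ⟨L.mul_mem hl₀ hk'.1, (NTC_eq E _ l₀).2 ?_⟩
      have e : l₀⁻¹ * (l₀ * k) = k := by group
      rw [e]
      exact hk'.2
  rw [e, Set.ncard_image_of_injective _ (mul_right_injective l₀)]
  rfl

theorem NTC_card [Finite G] (L E : Subgroup G) :
    (Nat.card L : ℂ) = ∑ᶠ E' : Subgroup G, ({l : G | l ∈ L ∧ cjS l E = E'}.ncard : ℂ) := by
  classical
  letI := Fintype.ofFinite G
  letI : Fintype (Subgroup G) := Fintype.ofFinite _
  rw [finsum_eq_sum_of_fintype]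
  have h1 : Nat.card L = (Finset.univ.filter fun l : G => l ∈ L).card := by
    rw [Nat.card_eq_fintype_card, Fintype.card_subtype]
  have h2 : (Finset.univ.filter fun l : G => l ∈ L).card =
      ∑ E' : Subgroup G, ((Finset.univ.filter fun l : G => l ∈ L).filter fun l => cjS l E = E').card :=
    Finset.card_eq_sum_card_fiberwise fun _ _ => Finset.mem_univ _
  rw [h1, h2, Nat.cast_sum]
  refine Finset.sum_congr rfl fun E' _ => ?_
  congr 1
  rw [← Set.ncard_coe_finset]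
  congr 1
  ext l
  simp

end

theorem NTC (_hNEG : NEG_stmt) (hNUF : NUF_stmt) (hNUE : NUE_stmt) (hNBC : NBC_stmt) (_hFEQ : FEQ_stmt) :
    NTC_stmt := by
  classical
  intro p e m M hS hme G _ _ L ψ hψ z x hU
  rw [NTC_card L (Eg p e z)]
  letI : Fintype (Subgroup G) := Fintype.ofFinite _
  rw [finsum_eq_sum_of_fintype, finsum_eq_sum_of_fintype, Finset.sum_mul]
  refine Finset.sum_congr rfl fun E' _ => ?_
  by_cases h : ∃ l ∈ L, E' = cjS l (Eg p e z)
  · obtain ⟨l, hl, rfl⟩ := h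
    rw [NTC_fib _ _ _ hl, NTC_nz _ _ _ hl, NTC_cd,
      (hNBC p e m M hS G L (L ⊓ nz (Eg p e z)) (Eg p e z) inf_le_left ψ).1 l hl]
  · have h1 : {l : G | l ∈ L ∧ cjS l (Eg p e z) = E'}.ncard = 0 := by
      have : {l : G | l ∈ L ∧ cjS l (Eg p e z) = E'} = ∅ := by
        ext l
        simp only [Set.mem_empty_iff_false, iff_false]
        rintro ⟨hl, he⟩
        exact h ⟨l, hl, he.symm⟩
      rw [this, Set.ncard_empty]
    have h2 : BE p e m M L (L ⊓ nz E') E' ψ = ∅ := by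
      ext η
      simp only [Set.mem_empty_iff_false, iff_false]
      rintro ⟨hη, hSB, z', x', hU', hE⟩
      have h3 := hNUF p e m M hS hme G L E' η hη z' x' hU' hE ψ hSB
      obtain ⟨k, hk, hk'⟩ := hNUE p e m M hS hme G L ψ hψ z x z' x' hU h3
      exact h ⟨k, hk, by rw [← hE, hk']⟩
    have h3 : lE p e m M L (L ⊓ nz E') E' ψ = 0 := by
      unfold lE
      rw [h2, finsum_mem_empty]
    rw [h1, h3]
    simp

end Pool.Agent.NAB
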